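import Mathlib

set_option autoImplicit false

namespace Pool.Agent.Results.MP_89ca7b_co.ManySeparatorsLongHole

/-- Contraction of the edge `x y`: the vertex `y` is merged into `x`. -/
def contract {V : Type} (G : SimpleGraph V) (x y : V) : SimpleGraph {w : V // w ≠ y} where
  Adj a b := a ≠ b ∧ (G.Adj a.1 b.1 ∨ (a.1 = x ∧ G.Adj y b.1) ∨ (b.1 = x ∧ G.Adj a.1 y))
  symm := ⟨by
    rintro a b ⟨h1, h2⟩
    refine ⟨h1.symm, ?_⟩
    rcases h2 with h2 | ⟨h2, h3⟩ | ⟨h2, h3⟩
    · exact Or.inl h2.symm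
    · exact Or.inr (Or.inr ⟨h2, h3.symm⟩)
    · exact Or.inr (Or.inl ⟨h2, h3.symm⟩)⟩
  loopless := ⟨by
    rintro a ⟨h1, _⟩
    exact h1 rfl⟩

/-- `H` is an induced minor of `G`: `H` is isomorphic to a graph obtained from `G` by a sequence
of vertex deletions and edge contractions. -/
inductive IsInducedMinor {W : Type} (H : SimpleGraph W) : {V : Type} → SimpleGraph V → Prop
  | iso {V : Type} (G : SimpleGraph V) (h : Nonempty (H ≃g G)) : IsInducedMinor H G
  | delete {V : Type} (G : SimpleGraph V) (v : V)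
      (h : IsInducedMinor H (G.induce {w : V | w ≠ v})) : IsInducedMinor H G
  | contraction {V : Type} (G : SimpleGraph V) (x y : V) (hxy : G.Adj x y)
      (h : IsInducedMinor H (contract G x y)) : IsInducedMinor H G

/-- `G` has a clique cutset: a clique `C` (possibly empty) with `G - C` disconnected. -/
def HasCliqueCutset {V : Type} (G : SimpleGraph V) : Prop :=
  ∃ C : Set V, G.IsClique C ∧ ¬ (G.induce Cᶜ).Preconnected

/-- `S` is an `(a,b)`-separator. -/
def Separates {V : Type} (G : SimpleGraph V) (S : Set V) (a b : V) : Prop :=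
  ∃ (ha : a ∈ Sᶜ) (hb : b ∈ Sᶜ), ¬ (G.induce Sᶜ).Reachable ⟨a, ha⟩ ⟨b, hb⟩

/-- `S` is a minimal separator: an inclusion-minimal `(a,b)`-separator for some
non-adjacent (distinct) `a, b`. -/
def IsMinimalSeparator {V : Type} (G : SimpleGraph V) (S : Set V) : Prop :=
  ∃ a b : V, a ≠ b ∧ ¬ G.Adj a b ∧ Separates G S a b ∧ ∀ T : Set V, T ⊂ S → ¬ Separates G T a b

/-- `G` has a hole of length `L` (an induced cycle on `L ≥ 4` vertices). -/
def HasHoleOfLength {V : Type} (G : SimpleGraph V) (L : ℕ) : Prop :=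
  4 ≤ L ∧ Nonempty (SimpleGraph.cycleGraph L ↪g G)

/-! ### Bag models -/

/-- Connectivity of a set of vertices. -/
def ConnOn {V : Type} (G : SimpleGraph V) (B : Set V) : Prop :=
  B.Nonempty ∧ ∀ a ∈ B, ∀ b ∈ B, Relation.ReflTransGen (fun x y => G.Adj x y ∧ y ∈ B) a b

/-- Induced minor model. -/
structure Model {W : Type} (H : SimpleGraph W) {V : Type} (G : SimpleGraph V)
    (B : W → Set V) : Prop where
  conn : ∀ w, ConnOn G (B w)
  disj : ∀ w w', w ≠ w' → ∀ x ∈ B w, x ∉ B w'
  adj : ∀ w w', w ≠ w' → (H.Adj w w' ↔ ∃ x ∈ B w, ∃ y ∈ B w', G.Adj x y)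

lemma model_of_isInducedMinor {W : Type} (H : SimpleGraph W) {V : Type} (G : SimpleGraph V)
    (h : IsInducedMinor H G) : ∃ B, Model H G B := by
  induction h with
  | iso G h =>
    obtain ⟨e⟩ := h
    refine ⟨fun w => {e w}, ?_, ?_, ?_⟩
    · intro w
      refine ⟨⟨e w, rfl⟩, ?_⟩
      intro a ha b hb
      rw [Set.mem_singleton_iff] at ha hb
      rw [ha, hb]
    · intro w w' hne x hx hx'
      rw [Set.mem_singleton_iff] at hx hx'
      exact hne (e.injective (hx.symm.trans hx'))
    · intro w w' _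
      constructor
      · intro h
        exact ⟨e w, rfl, e w', rfl, e.map_adj_iff.2 h⟩
      · rintro ⟨x, hx, y, hy, hxy⟩
        rw [Set.mem_singleton_iff] at hx hy
        rw [hx, hy] at hxy
        exact e.map_adj_iff.1 hxy
  | delete G v h ih =>
    obtain ⟨B, hB⟩ := ih
    refine ⟨fun w => Subtype.val '' (B w), ?_, ?_, ?_⟩
    · intro w
      obtain ⟨hne, hc⟩ := hB.conn w
      refine ⟨hne.image _, ?_⟩
      rintro _ ⟨a, ha, rfl⟩ _ ⟨b, hb, rfl⟩
      have := hc a ha b hb
      refine Relation.ReflTransGen.lift (fun z : ↑{w : _ | w ≠ v} => z.1) ?_ a b this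
      rintro x y ⟨hxy, hy⟩
      exact ⟨hxy, ⟨y, hy, rfl⟩⟩
    · rintro w w' hne _ ⟨x, hx, rfl⟩ ⟨y, hy, hxy⟩
      have : x = y := Subtype.ext hxy.symm
      rw [← this] at hy
      exact hB.disj w w' hne x hx hy
    · intro w w' hne
      rw [hB.adj w w' hne]
      constructor
      · rintro ⟨x, hx, y, hy, hxy⟩
        exact ⟨x.1, ⟨x, hx, rfl⟩, y.1, ⟨y, hy, rfl⟩, hxy⟩
      · rintro ⟨_, ⟨x, hx, rfl⟩, _, ⟨y, hy, rfl⟩, hxy⟩
        exact ⟨x, hx, y, hy, hxy⟩
  | contraction G x y hxy h ih =>
    rename_i V'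
    classical
    obtain ⟨B, hB⟩ := ih
    have hxy' : x ≠ y := hxy.ne
    -- the contraction map
    let π : V' → {w : V' // w ≠ y} := fun v => if hv : v = y then ⟨x, hxy'⟩ else ⟨v, hv⟩
    have hπy : π y = ⟨x, hxy'⟩ := by simp [π]
    have hπne : ∀ v (hv : v ≠ y), π v = ⟨v, hv⟩ := fun v hv => by simp [π, hv]
    have hπval : ∀ v : {w : V' // w ≠ y}, π v.1 = v := fun v => by
      rw [hπne v.1 v.2]
    -- fibres are connected
    have hfib : ∀ (D : Set {w : V' // w ≠ y}) (v : V'), π v ∈ D →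
        Relation.ReflTransGen (fun p q => G.Adj p q ∧ q ∈ {u | π u ∈ D}) v (π v).1 ∧
        Relation.ReflTransGen (fun p q => G.Adj p q ∧ q ∈ {u | π u ∈ D}) (π v).1 v := by
      intro D v hv
      by_cases hvy : v = y
      · subst hvy
        rw [hπy] at hv ⊢
        constructor
        · refine Relation.ReflTransGen.single ⟨hxy.symm, ?_⟩
          show π x ∈ D
          rw [hπne x hxy']
          exact hv
        · refine Relation.ReflTransGen.single ⟨hxy, ?_⟩
          show π v ∈ D
          rw [hπy]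
          exact hv
      · rw [hπne v hvy]
        exact ⟨Relation.ReflTransGen.refl, Relation.ReflTransGen.refl⟩
    have hstep : ∀ (D : Set {w : V' // w ≠ y}) (p q : {w : V' // w ≠ y}), p ∈ D → q ∈ D →
        (contract G x y).Adj p q →
        Relation.ReflTransGen (fun p q => G.Adj p q ∧ q ∈ {u | π u ∈ D}) p.1 q.1 := by
      intro D p q hp hq hpq
      have hqD : q.1 ∈ {u | π u ∈ D} := by
        show π q.1 ∈ D
        rw [hπval]
        exact hq
      rcases hpq with ⟨_, h1 | ⟨h1, h2⟩ | ⟨h1, h2⟩⟩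
      · exact Relation.ReflTransGen.single ⟨h1, hqD⟩
      · -- p = x, y ~ q
        have hyD : y ∈ {u | π u ∈ D} := by
          show π y ∈ D
          rw [hπy]
          have : p = ⟨x, hxy'⟩ := Subtype.ext h1
          rw [← this]
          exact hp
        rw [h1]
        exact (Relation.ReflTransGen.single (r := fun p q => G.Adj p q ∧ q ∈ {u | π u ∈ D})
          ⟨hxy, hyD⟩).tail ⟨h2, hqD⟩
      · have hyD : y ∈ {u | π u ∈ D} := by
          show π y ∈ D
          rw [hπy]
          have : q = ⟨x, hxy'⟩ := Subtype.ext h1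
          rw [← this]
          exact hq
        rw [h1] at hqD ⊢
        exact (Relation.ReflTransGen.single (r := fun p q => G.Adj p q ∧ q ∈ {u | π u ∈ D})
          ⟨h2, hyD⟩).tail ⟨hxy.symm, hqD⟩
    refine ⟨fun w => {u | π u ∈ B w}, ?_, ?_, ?_⟩
    · intro w
      obtain ⟨⟨a0, ha0⟩, hc⟩ := hB.conn w
      refine ⟨⟨a0.1, ?_⟩, ?_⟩
      · show π a0.1 ∈ B w
        rw [hπval]
        exact ha0
      · intro a ha b hb
        have ha' : π a ∈ B w := ha
        have hb' : π b ∈ B w := hb
        have h1 := hc _ ha' _ hb'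
        have h2 : ∀ c, Relation.ReflTransGen (fun x_1 y_1 => (contract G x y).Adj x_1 y_1
            ∧ y_1 ∈ B w) (π a) c → c ∈ B w ∧
            Relation.ReflTransGen (fun p q => G.Adj p q ∧ q ∈ {u | π u ∈ B w}) (π a).1 c.1 := by
          intro c hc'
          induction hc' with
          | refl => exact ⟨ha', Relation.ReflTransGen.refl⟩
          | tail _ hbc ih =>
            exact ⟨hbc.2, ih.2.trans (hstep (B w) _ _ ih.1 hbc.2 hbc.1)⟩
        exact (hfib (B w) a ha').1.trans ((h2 _ h1).2.trans (hfib (B w) b hb').2)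
    · intro w w' hne u hu hu'
      exact hB.disj w w' hne (π u) hu hu'
    · intro w w' hne
      rw [hB.adj w w' hne]
      constructor
      · rintro ⟨p, hp, q, hq, hpq⟩
        have hp' : π p.1 ∈ B w := by rw [hπval]; exact hp
        have hq' : π q.1 ∈ B w' := by rw [hπval]; exact hq
        rcases hpq with ⟨_, h1 | ⟨h1, h2⟩ | ⟨h1, h2⟩⟩
        · exact ⟨p.1, hp', q.1, hq', h1⟩
        · refine ⟨y, ?_, q.1, hq', h2⟩
          show π y ∈ B w
          rw [hπy]
          have : p = ⟨x, hxy'⟩ := Subtype.ext h1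
          rw [← this]
          exact hp
        · refine ⟨p.1, hp', y, ?_, h2⟩
          show π y ∈ B w'
          rw [hπy]
          have : q = ⟨x, hxy'⟩ := Subtype.ext h1
          rw [← this]
          exact hq
      · rintro ⟨p, hp, q, hq, hpq⟩
        have hp' : π p ∈ B w := hp
        have hq' : π q ∈ B w' := hq
        refine ⟨π p, hp', π q, hq', ?_, ?_⟩
        · intro heq
          rw [heq] at hp'
          exact hB.disj w w' hne _ hp' hq'
        · by_cases hpy : p = y
          · subst hpy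
            have hqy : q ≠ p := hpq.ne'
            rw [hπy, hπne q hqy]
            exact Or.inr (Or.inl ⟨rfl, hpq⟩)
          · by_cases hqy : q = y
            · subst hqy
              rw [hπy, hπne p hpy]
              exact Or.inr (Or.inr ⟨rfl, hpq⟩)
            · rw [hπne p hpy, hπne q hqy]
              exact Or.inl hpq

/-! ### The example -/

/-- Vertices: a cycle `h_0, …, h_{m-1}`, and two `t`-sets `u_a`, `v_a`. -/
abbrev Vt (m t : ℕ) : Type := Fin m ⊕ (Fin t ⊕ Fin t)

/-- Adjacency of the example. -/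
def adjF (m t : ℕ) : Vt m t → Vt m t → Prop
  | Sum.inl i, Sum.inl j => i.val + 1 = j.val ∨ j.val + 1 = i.val ∨
      (i.val = 0 ∧ j.val + 1 = m ∧ 3 ≤ m) ∨ (j.val = 0 ∧ i.val + 1 = m ∧ 3 ≤ m)
  | Sum.inl _, Sum.inr (Sum.inl _) => True
  | Sum.inr (Sum.inl _), Sum.inl _ => True
  | Sum.inl i, Sum.inr (Sum.inr _) => i.val ≤ 1 ∨ i.val + 1 = m
  | Sum.inr (Sum.inr _), Sum.inl i => i.val ≤ 1 ∨ i.val + 1 = m
  | Sum.inr (Sum.inl a), Sum.inr (Sum.inl b) => a ≠ b
  | Sum.inr (Sum.inr a), Sum.inr (Sum.inr b) => a ≠ b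
  | Sum.inr (Sum.inl a), Sum.inr (Sum.inr b) => a = b
  | Sum.inr (Sum.inr a), Sum.inr (Sum.inl b) => a = b

/-- The example graph. -/
def Ex (m t : ℕ) : SimpleGraph (Vt m t) where
  Adj := adjF m t
  symm := ⟨by
    rintro (i | i | i) (j | j | j) h <;> simp only [adjF] at h ⊢ <;>
      first
        | exact h
        | exact Ne.symm h
        | exact Eq.symm h
        | tauto⟩
  loopless := ⟨by
    rintro (i | i | i) h <;> simp only [adjF] at h
    · omega
    · exact h rfl
    · exact h rfl⟩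

lemma hole_embed (m t : ℕ) (hm : 4 ≤ m) : HasHoleOfLength (Ex m t) m := by
  refine ⟨hm, ⟨⟨⟨Sum.inl, Sum.inl_injective⟩, ?_⟩⟩⟩
  intro i j
  show adjF m t (Sum.inl i) (Sum.inl j) ↔ _
  rw [SimpleGraph.cycleGraph_adj']
  simp only [adjF]
  have hi := i.isLt
  have hj := j.isLt
  rw [Fin.sub_def, Fin.sub_def]
  simp only
  constructor
  · rintro (h | h | h | h)
    · right
      rw [show m - i.val + j.val = 1 + m by omega, Nat.add_mod_right, Nat.mod_eq_of_lt (by omega)]
    · left
      rw [show m - j.val + i.val = 1 + m by omega, Nat.add_mod_right, Nat.mod_eq_of_lt (by omega)]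
    · left
      rw [show m - j.val + i.val = 1 by omega, Nat.mod_eq_of_lt (by omega)]
    · right
      rw [show m - i.val + j.val = 1 by omega, Nat.mod_eq_of_lt (by omega)]
  · rintro (h | h)
    · by_cases hji : j.val ≤ i.val
      · rw [show m - j.val + i.val = (i.val - j.val) + m by omega, Nat.add_mod_right,
          Nat.mod_eq_of_lt (by omega)] at h
        omega
      · rw [Nat.mod_eq_of_lt (by omega)] at h
        omega
    · by_cases hji : i.val ≤ j.val
      · rw [show m - i.val + j.val = (j.val - i.val) + m by omega, Nat.add_mod_right,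
          Nat.mod_eq_of_lt (by omega)] at h
        omega
      · rw [Nat.mod_eq_of_lt (by omega)] at h
        omega

/-! ### No `K_{2,3}` induced minor -/

lemma caseC {m t : ℕ} (Q : Set (Vt m t)) (hconn : ConnOn (Ex m t) Q)
    (hQ : ∀ x ∈ Q, ∃ i : Fin m, i.val ≠ 0 ∧ x = Sum.inl i)
    (x : Fin 3 → Vt m t) (hxQ : ∀ k, x k ∉ Q)
    (hxu : ∀ k a, x k ≠ Sum.inr (Sum.inl a))
    (hadj : ∀ k, ∃ q ∈ Q, (Ex m t).Adj (x k) q)
    (hne : ∀ k l, k ≠ l → x k ≠ x l)
    (hna : ∀ k l, k ≠ l → ¬ (Ex m t).Adj (x k) (x l)) : False := by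
  -- interval property
  have hint : ∀ i j : Fin m, Sum.inl i ∈ Q → Sum.inl j ∈ Q → ∀ c, i.val < c → c < j.val →
      ∃ k : Fin m, k.val = c ∧ Sum.inl k ∈ Q := by
    intro i j hi hj c hic hcj
    by_contra hno
    push Not at hno
    have hpath := hconn.2 _ hi _ hj
    have hall : ∀ y, Relation.ReflTransGen (fun x y => (Ex m t).Adj x y ∧ y ∈ Q)
        (Sum.inl i : Vt m t) y → ∃ k : Fin m, y = Sum.inl k ∧ k.val < c ∧ k.val ≠ 0 := by
      intro y hy
      induction hy with
      | refl =>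
        obtain ⟨i', hi', he⟩ := hQ _ hi
        have : i = i' := Sum.inl_injective he
        subst this
        exact ⟨i, rfl, hic, hi'⟩
      | tail _ hbc ih =>
        obtain ⟨k, rfl, hk, hk0⟩ := ih
        obtain ⟨hadj1, hz⟩ := hbc
        obtain ⟨l, hl0, rfl⟩ := hQ _ hz
        refine ⟨l, rfl, ?_, hl0⟩
        have h1 : adjF m t (Sum.inl k) (Sum.inl l) := hadj1
        simp only [adjF] at h1
        have h2 : l.val ≠ c := fun h => hno l h hz
        omega
    obtain ⟨k, hk, hk1, _⟩ := hall _ hpath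
    have : j = k := Sum.inl_injective hk
    subst this
    omega
  -- the two label functions
  let ρ : Vt m t → ℕ := fun y => match y with
    | Sum.inl j => if j.val = 0 then m else j.val
    | Sum.inr _ => m
  let lam : Vt m t → ℕ := fun y => match y with
    | Sum.inl j => j.val
    | Sum.inr _ => 0
  have hcl : ∀ k, (∃ i : Fin m, Sum.inl i ∈ Q ∧ ρ (x k) = i.val + 1) ∨
      (∃ i : Fin m, Sum.inl i ∈ Q ∧ lam (x k) + 1 = i.val) := by
    intro k
    obtain ⟨q, hq, ha⟩ := hadj k
    obtain ⟨i, hi0, rfl⟩ := hQ q hq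
    rcases hxk : x k with j | j | a
    · rw [hxk] at ha
      have h1 : adjF m t (Sum.inl j) (Sum.inl i) := ha
      simp only [adjF] at h1
      by_cases hj0 : j.val = 0
      · rcases h1 with h1 | h1 | h1 | h1
        · exact Or.inr ⟨i, hq, h1⟩
        · omega
        · left
          refine ⟨i, hq, ?_⟩
          simp only [ρ, hj0, if_true]
          omega
        · omega
      · rcases h1 with h1 | h1 | h1 | h1
        · exact Or.inr ⟨i, hq, h1⟩
        · left
          refine ⟨i, hq, ?_⟩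
          simp only [ρ, hj0, if_false]
          omega
        · omega
        · omega
    · exact absurd hxk (hxu k j)
    · rw [hxk] at ha
      have h1 : adjF m t (Sum.inr (Sum.inr a)) (Sum.inl i) := ha
      simp only [adjF] at h1
      rcases h1 with h1 | h1
      · right
        refine ⟨i, hq, ?_⟩
        simp only [lam]
        omega
      · left
        refine ⟨i, hq, ?_⟩
        simp only [ρ]
        omega
  have htwin : ∀ k l, k ≠ l → ρ (x k) = m → ρ (x l) = m → False := by
    intro k l hkl h1 h2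
    have hne' := hne k l hkl
    have hna' := hna k l hkl
    rcases hxk : x k with j | j | a
    · rcases hxl : x l with j' | j' | b
      · rw [hxk] at h1
        rw [hxl] at h2
        simp only [ρ] at h1 h2
        have hj := j.isLt
        have hj' := j'.isLt
        split_ifs at h1 h2 <;> try omega
        apply hne'
        rw [hxk, hxl]
        congr 1
        exact Fin.ext (by omega)
      · exact hxu l j' hxl
      · rw [hxk] at h1
        simp only [ρ] at h1
        have hj := j.isLt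
        split_ifs at h1 <;> try omega
        apply hna'
        rw [hxk, hxl]
        show adjF m t (Sum.inl j) (Sum.inr (Sum.inr b))
        simp only [adjF]
        omega
    · exact hxu k j hxk
    · rcases hxl : x l with j' | j' | b
      · rw [hxl] at h2
        simp only [ρ] at h2
        have hj := j'.isLt
        split_ifs at h2 <;> try omega
        apply hna'
        rw [hxk, hxl]
        show adjF m t (Sum.inr (Sum.inr a)) (Sum.inl j')
        simp only [adjF]
        omega
      · exact hxu l j' hxl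
      · apply hna'
        rw [hxk, hxl]
        show adjF m t (Sum.inr (Sum.inr a)) (Sum.inr (Sum.inr b))
        simp only [adjF]
        rintro rfl
        exact hne' (hxk.trans hxl.symm)
  have htwin0 : ∀ k l, k ≠ l → lam (x k) = 0 → lam (x l) = 0 → False := by
    intro k l hkl h1 h2
    apply htwin k l hkl
    · rcases hxk : x k with j | j | a
      · rw [hxk] at h1
        simp only [lam] at h1
        simp only [ρ, h1, if_true]
      · rfl
      · rfl
    · rcases hxk : x l with j | j | a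
      · rw [hxk] at h2
        simp only [lam] at h2
        simp only [ρ, h2, if_true]
      · rfl
      · rfl
  have hrho : ∀ k, ∀ c, ρ (x k) = c → c < m → ∃ j : Fin m, x k = Sum.inl j ∧ j.val = c := by
    intro k c hc hcm
    rcases hxk : x k with j | j | a
    · rw [hxk] at hc
      simp only [ρ] at hc
      split_ifs at hc
      · omega
      · exact ⟨j, rfl, hc⟩
    · rw [hxk] at hc
      simp only [ρ] at hc
      omega
    · rw [hxk] at hc
      simp only [ρ] at hc
      omega
  have hlam : ∀ k, ∀ c, lam (x k) = c → 0 < c → ∃ j : Fin m, x k = Sum.inl j ∧ j.val = c := by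
    intro k c hc hcm
    rcases hxk : x k with j | j | a
    · rw [hxk] at hc
      simp only [lam] at hc
      exact ⟨j, rfl, hc⟩
    · rw [hxk] at hc
      simp only [lam] at hc
      omega
    · rw [hxk] at hc
      simp only [lam] at hc
      omega
  -- two of the same kind on the right
  have hR : ∀ k l, k ≠ l → ∀ i j : Fin m, Sum.inl i ∈ Q → Sum.inl j ∈ Q → ρ (x k) = i.val + 1 →
      ρ (x l) = j.val + 1 → i.val ≤ j.val → False := by
    intro k l hkl i j hi hj hk hl hij
    rcases lt_or_eq_of_le hij with hlt | heq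
    · -- i < j
      have h1 : i.val + 1 < m := by omega
      obtain ⟨j', hj', hjv⟩ := hrho k _ hk h1
      rcases lt_or_eq_of_le (Nat.succ_le_of_lt hlt) with h2 | h2
      · obtain ⟨k', hk', hk'Q⟩ := hint i j hi hj (i.val + 1) (by omega) h2
        have : j' = k' := Fin.ext (by omega)
        subst this
        exact hxQ k (hj' ▸ hk'Q)
      · have : j' = j := Fin.ext (by omega)
        subst this
        exact hxQ k (hj' ▸ hj)
    · by_cases h1 : i.val + 1 < m
      · obtain ⟨j1, hj1, hj1v⟩ := hrho k _ hk h1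
        obtain ⟨j2, hj2, hj2v⟩ := hrho l _ hl (by omega)
        have : j1 = j2 := Fin.ext (by omega)
        subst this
        exact hne k l hkl (hj1.trans hj2.symm)
      · exact htwin k l hkl (by omega) (by omega)
  have hL : ∀ k l, k ≠ l → ∀ i j : Fin m, Sum.inl i ∈ Q → Sum.inl j ∈ Q → lam (x k) + 1 = i.val →
      lam (x l) + 1 = j.val → i.val ≤ j.val → False := by
    intro k l hkl i j hi hj hk hl hij
    rcases lt_or_eq_of_le hij with hlt | heq
    · have h1 : 0 < j.val - 1 := by omega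
      obtain ⟨j', hj', hjv⟩ := hlam l (j.val - 1) (by omega) h1
      rcases lt_or_eq_of_le (Nat.le_sub_one_of_lt hlt) with h2 | h2
      · obtain ⟨k', hk', hk'Q⟩ := hint i j hi hj (j.val - 1) h2 (by omega)
        have : j' = k' := Fin.ext (by omega)
        subst this
        exact hxQ l (hj' ▸ hk'Q)
      · have : j' = i := Fin.ext (by omega)
        subst this
        exact hxQ l (hj' ▸ hi)
    · by_cases h1 : 0 < lam (x k)
      · obtain ⟨j1, hj1, hj1v⟩ := hlam k _ rfl h1
        obtain ⟨j2, hj2, hj2v⟩ := hlam l _ rfl (by omega)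
        have : j1 = j2 := Fin.ext (by omega)
        subst this
        exact hne k l hkl (hj1.trans hj2.symm)
      · exact htwin0 k l hkl (by omega) (by omega)
  have hR' : ∀ k l, k ≠ l → (∃ i : Fin m, Sum.inl i ∈ Q ∧ ρ (x k) = i.val + 1) →
      (∃ i : Fin m, Sum.inl i ∈ Q ∧ ρ (x l) = i.val + 1) → False := by
    rintro k l hkl ⟨i, hi, hi'⟩ ⟨j, hj, hj'⟩
    rcases le_total i.val j.val with h | h
    · exact hR k l hkl i j hi hj hi' hj' h
    · exact hR l k hkl.symm j i hj hi hj' hi' h
  have hL' : ∀ k l, k ≠ l → (∃ i : Fin m, Sum.inl i ∈ Q ∧ lam (x k) + 1 = i.val) →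
      (∃ i : Fin m, Sum.inl i ∈ Q ∧ lam (x l) + 1 = i.val) → False := by
    rintro k l hkl ⟨i, hi, hi'⟩ ⟨j, hj, hj'⟩
    rcases le_total i.val j.val with h | h
    · exact hL k l hkl i j hi hj hi' hj' h
    · exact hL l k hkl.symm j i hj hi hj' hi' h
  rcases hcl 0 with h0 | h0 <;> rcases hcl 1 with h1 | h1 <;> rcases hcl 2 with h2 | h2
  · exact hR' 0 1 (by decide) h0 h1
  · exact hR' 0 1 (by decide) h0 h1
  · exact hR' 0 2 (by decide) h0 h2
  · exact hL' 1 2 (by decide) h1 h2
  · exact hR' 1 2 (by decide) h1 h2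
  · exact hL' 0 2 (by decide) h0 h2
  · exact hL' 0 1 (by decide) h0 h1
  · exact hL' 0 1 (by decide) h0 h1

/-- The complete bipartite graph `K_{2,3}`. -/
abbrev K23 : SimpleGraph (Fin 2 ⊕ Fin 3) := completeBipartiteGraph (Fin 2) (Fin 3)

lemma no_model (m t : ℕ) (hm : 4 ≤ m) (B : Fin 2 ⊕ Fin 3 → Set (Vt m t))
    (hB : Model K23 (Ex m t) B) : False := by
  have hPQ : ∀ p ∈ B (Sum.inl 0), ∀ q ∈ B (Sum.inl 1), ¬ (Ex m t).Adj p q := by
    intro p hp q hq hpq
    have := (hB.adj (Sum.inl 0) (Sum.inl 1) (by simp)).2 ⟨p, hp, q, hq, hpq⟩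
    simp [completeBipartiteGraph] at this
  have hXX : ∀ k l : Fin 3, k ≠ l → ∀ x ∈ B (Sum.inr k), ∀ y ∈ B (Sum.inr l),
      ¬ (Ex m t).Adj x y := by
    intro k l hkl x hx y hy hxy
    have := (hB.adj (Sum.inr k) (Sum.inr l) (by simpa using hkl)).2 ⟨x, hx, y, hy, hxy⟩
    simp [completeBipartiteGraph] at this
  have hXne : ∀ k l : Fin 3, k ≠ l → ∀ x ∈ B (Sum.inr k), ∀ y ∈ B (Sum.inr l), x ≠ y := by
    intro k l hkl x hx y hy hxy
    subst hxy
    exact hB.disj (Sum.inr k) (Sum.inr l) (by simpa using hkl) x hx hy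
  have hPX : ∀ (c : Fin 2) (k : Fin 3), ∃ x ∈ B (Sum.inr k), ∃ q ∈ B (Sum.inl c),
      (Ex m t).Adj x q := by
    intro c k
    have := (hB.adj (Sum.inr k) (Sum.inl c) (by simp)).1 (by simp [completeBipartiteGraph])
    obtain ⟨x, hx, q, hq, h⟩ := this
    exact ⟨x, hx, q, hq, h⟩
  -- case A : `P` or `Q` contains a `u`-vertex
  have hA : ∀ c d : Fin 2, c ≠ d → ∀ a, Sum.inr (Sum.inl a) ∉ B (Sum.inl c) := by
    intro c d hcd a ha
    have hcd' : ∀ q ∈ B (Sum.inl d), ¬ (Ex m t).Adj (Sum.inr (Sum.inl a)) q := by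
      intro q hq h
      have := (hB.adj (Sum.inl c) (Sum.inl d) (by simpa using hcd)).2 ⟨_, ha, q, hq, h⟩
      simp [completeBipartiteGraph] at this
    have hQ : ∀ q ∈ B (Sum.inl d), ∃ b, q = Sum.inr (Sum.inr b) := by
      intro q hq
      rcases q with j | b | b
      · exact absurd (show adjF m t (Sum.inr (Sum.inl a)) (Sum.inl j) from trivial) (hcd' _ hq)
      · by_cases hab : a = b
        · subst hab
          exact absurd hq (hB.disj (Sum.inl c) (Sum.inl d) (by simpa using hcd) _ ha)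
        · exact absurd (show adjF m t (Sum.inr (Sum.inl a)) (Sum.inr (Sum.inl b)) from hab)
            (hcd' _ hq)
      · exact ⟨b, rfl⟩
    -- representatives
    choose x hx q hq hxq using hPX d
    have htype : ∀ k, (∃ j : Fin m, x k = Sum.inl j ∧ (j.val ≤ 1 ∨ j.val + 1 = m)) ∨
        (∃ b, x k = Sum.inr (Sum.inl b)) ∨ (∃ b, x k = Sum.inr (Sum.inr b)) := by
      intro k
      rcases hxk : x k with j | b | b
      · left
        refine ⟨j, rfl, ?_⟩
        obtain ⟨b, hb⟩ := hQ _ (hq k)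
        have h := hxq k
        rw [hxk, hb] at h
        exact h
      · exact Or.inr (Or.inl ⟨b, rfl⟩)
      · exact Or.inr (Or.inr ⟨b, rfl⟩)
    have hne : ∀ k l, k ≠ l → x k ≠ x l := fun k l hkl => hXne k l hkl _ (hx k) _ (hx l)
    have hna : ∀ k l, k ≠ l → ¬ adjF m t (x k) (x l) :=
      fun k l hkl => hXX k l hkl _ (hx k) _ (hx l)
    -- u-u
    have huu : ∀ k l, k ≠ l → ∀ b b', x k = Sum.inr (Sum.inl b) → x l = Sum.inr (Sum.inl b') →
        False := by
      intro k l hkl b b' h1 h2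
      have e1 := hna k l hkl
      have e2 := hne k l hkl
      rw [h1, h2] at e1 e2
      simp only [adjF] at e1
      exact e1 (fun h => e2 (by rw [h]))
    have hvv : ∀ k l, k ≠ l → ∀ b b', x k = Sum.inr (Sum.inr b) → x l = Sum.inr (Sum.inr b') →
        False := by
      intro k l hkl b b' h1 h2
      have e1 := hna k l hkl
      have e2 := hne k l hkl
      rw [h1, h2] at e1 e2
      simp only [adjF] at e1
      exact e1 (fun h => e2 (by rw [h]))
    have hhu : ∀ k l, k ≠ l → ∀ (j : Fin m) b', x k = Sum.inl j →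
        x l = Sum.inr (Sum.inl b') → False := by
      intro k l hkl j b' h1 h2
      have e1 := hna k l hkl
      rw [h1, h2] at e1
      exact e1 trivial
    have hhv : ∀ k l, k ≠ l → ∀ (j : Fin m) b', x k = Sum.inl j → (j.val ≤ 1 ∨ j.val + 1 = m) →
        x l = Sum.inr (Sum.inr b') → False := by
      intro k l hkl j b' h1 h3 h2
      have e1 := hna k l hkl
      rw [h1, h2] at e1
      exact e1 h3
    have hthree : ∀ j0 j1 j2 : Fin m, x 0 = Sum.inl j0 → x 1 = Sum.inl j1 → x 2 = Sum.inl j2 →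
        (j0.val ≤ 1 ∨ j0.val + 1 = m) → (j1.val ≤ 1 ∨ j1.val + 1 = m) →
        (j2.val ≤ 1 ∨ j2.val + 1 = m) → False := by
      intro j0 j1 j2 h0 h1 h2 g0 g1 g2
      have e01 := hna 0 1 (by decide)
      have e02 := hna 0 2 (by decide)
      have e12 := hna 1 2 (by decide)
      have n01 := hne 0 1 (by decide)
      have n02 := hne 0 2 (by decide)
      have n12 := hne 1 2 (by decide)
      rw [h0, h1] at e01 n01
      rw [h0, h2] at e02 n02
      rw [h1, h2] at e12 n12
      simp only [adjF] at e01 e02 e12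
      have n01' : j0.val ≠ j1.val := fun h => n01 (by rw [Fin.ext h])
      have n02' : j0.val ≠ j2.val := fun h => n02 (by rw [Fin.ext h])
      have n12' : j1.val ≠ j2.val := fun h => n12 (by rw [Fin.ext h])
      omega
    rcases htype 0 with ⟨j0, h0, g0⟩ | ⟨b0, h0⟩ | ⟨b0, h0⟩ <;>
    rcases htype 1 with ⟨j1, h1, g1⟩ | ⟨b1, h1⟩ | ⟨b1, h1⟩ <;>
    rcases htype 2 with ⟨j2, h2, g2⟩ | ⟨b2, h2⟩ | ⟨b2, h2⟩ <;>
    first
      | exact hthree j0 j1 j2 h0 h1 h2 g0 g1 g2
      | exact huu 0 1 (by decide) _ _ h0 h1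
      | exact huu 0 2 (by decide) _ _ h0 h2
      | exact huu 1 2 (by decide) _ _ h1 h2
      | exact hvv 0 1 (by decide) _ _ h0 h1
      | exact hvv 0 2 (by decide) _ _ h0 h2
      | exact hvv 1 2 (by decide) _ _ h1 h2
      | exact hhu 0 1 (by decide) _ _ h0 h1
      | exact hhu 0 2 (by decide) _ _ h0 h2
      | exact hhu 1 2 (by decide) _ _ h1 h2
      | exact hhu 1 0 (by decide) _ _ h1 h0
      | exact hhu 2 0 (by decide) _ _ h2 h0
      | exact hhu 2 1 (by decide) _ _ h2 h1
      | exact hhv 0 1 (by decide) _ _ h0 g0 h1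
      | exact hhv 0 2 (by decide) _ _ h0 g0 h2
      | exact hhv 1 2 (by decide) _ _ h1 g1 h2
      | exact hhv 1 0 (by decide) _ _ h1 g1 h0
  -- case B : some `X` contains a `u`-vertex
  have hBu : ∀ k l l' : Fin 3, k ≠ l → k ≠ l' → l ≠ l' → ∀ a,
      Sum.inr (Sum.inl a) ∉ B (Sum.inr k) := by
    intro k l l' hkl hkl' hll' a ha
    have hv : ∀ n, k ≠ n → ∀ y ∈ B (Sum.inr n), ∃ b, y = Sum.inr (Sum.inr b) := by
      intro n hkn y hy
      have h1 := hXX k n hkn _ ha y hy
      rcases y with j | b | b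
      · exact absurd (show adjF m t (Sum.inr (Sum.inl a)) (Sum.inl j) from trivial) h1
      · by_cases hab : a = b
        · subst hab
          exact absurd rfl (hXne k n hkn _ ha _ hy)
        · exact absurd (show adjF m t (Sum.inr (Sum.inl a)) (Sum.inr (Sum.inl b)) from hab) h1
      · exact ⟨b, rfl⟩
    obtain ⟨y, hy⟩ := (hB.conn (Sum.inr l)).1
    obtain ⟨y', hy'⟩ := (hB.conn (Sum.inr l')).1
    obtain ⟨b, hb⟩ := hv l hkl y hy
    obtain ⟨b', hb'⟩ := hv l' hkl' y' hy'
    have h1 := hXX l l' hll' y hy y' hy'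
    have h2 := hXne l l' hll' y hy y' hy'
    rw [hb, hb'] at h1 h2
    exact h1 (show adjF m t (Sum.inr (Sum.inr b)) (Sum.inr (Sum.inr b')) from
      fun h => h2 (by rw [h]))
  have hBu' : ∀ k : Fin 3, ∀ a, Sum.inr (Sum.inl a) ∉ B (Sum.inr k) := by
    intro k
    fin_cases k
    · exact hBu 0 1 2 (by decide) (by decide) (by decide)
    · exact hBu 1 0 2 (by decide) (by decide) (by decide)
    · exact hBu 2 0 1 (by decide) (by decide) (by decide)
  have hA0 := hA 0 1 (by decide)
  have hA1 := hA 1 0 (by decide)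
  -- case C
  have hC : ∀ c d : Fin 2, c ≠ d → (∀ a, Sum.inr (Sum.inl a) ∉ B (Sum.inl c)) →
      (∀ q ∈ B (Sum.inl c), ∃ i : Fin m, i.val ≠ 0 ∧ q = Sum.inl i) → False := by
    intro c d hcd hu hq
    choose x hx q hq' hxq using hPX c
    refine caseC (B (Sum.inl c)) (hB.conn _) hq x ?_ ?_ ?_ ?_ ?_
    · intro k hk
      exact hB.disj (Sum.inr k) (Sum.inl c) (by simp) _ (hx k) hk
    · intro k a h
      exact hBu' k a (h ▸ hx k)
    · intro k
      exact ⟨q k, hq' k, hxq k⟩
    · exact fun k l hkl => hXne k l hkl _ (hx k) _ (hx l)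
    · exact fun k l hkl => hXX k l hkl _ (hx k) _ (hx l)
  by_cases h0 : ∀ q ∈ B (Sum.inl 0), ∃ i : Fin m, i.val ≠ 0 ∧ q = Sum.inl i
  · exact hC 0 1 (by decide) hA0 h0
  by_cases h1 : ∀ q ∈ B (Sum.inl 1), ∃ i : Fin m, i.val ≠ 0 ∧ q = Sum.inl i
  · exact hC 1 0 (by decide) hA1 h1
  push Not at h0 h1
  obtain ⟨p, hp, hp'⟩ := h0
  obtain ⟨q, hq, hq'⟩ := h1
  have h2 := hPQ p hp q hq
  have h3 : p ≠ q := fun h => hB.disj (Sum.inl 0) (Sum.inl 1) (by simp) p hp (h ▸ hq)
  rcases p with i | a | a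
  · have hi : i.val = 0 := by
      by_contra h
      exact hp' i h rfl
    rcases q with j | b | b
    · have hj : j.val = 0 := by
        by_contra h
        exact hq' j h rfl
      exact h3 (by rw [Fin.ext (hi.trans hj.symm)])
    · exact hA1 b hq
    · exact h2 (show adjF m t (Sum.inl i) (Sum.inr (Sum.inr b)) from Or.inl (by omega))
  · exact hA0 a hp
  · rcases q with j | b | b
    · have hj : j.val = 0 := by
        by_contra h
        exact hq' j h rfl
      exact h2 (show adjF m t (Sum.inr (Sum.inr a)) (Sum.inl j) from Or.inl (by omega))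
    · exact hA1 b hq
    · exact h2 (show adjF m t (Sum.inr (Sum.inr a)) (Sum.inr (Sum.inr b)) from
        fun h => h3 (by rw [h]))

lemma no_minor (m t : ℕ) (hm : 4 ≤ m) : ¬ IsInducedMinor K23 (Ex m t) := by
  intro h
  obtain ⟨B, hB⟩ := model_of_isInducedMinor _ _ h
  exact no_model m t hm B hB

/-! ### No clique cutset -/

/-- Reachability in `G - C`. -/
def Rc {V : Type} (G : SimpleGraph V) (C : Set V) (x y : V) : Prop :=
  ∃ (hx : x ∈ Cᶜ) (hy : y ∈ Cᶜ), (G.induce Cᶜ).Reachable ⟨x, hx⟩ ⟨y, hy⟩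

lemma Rc.rfl' {V : Type} {G : SimpleGraph V} {C : Set V} {x : V} (hx : x ∉ C) : Rc G C x x :=
  ⟨hx, hx, SimpleGraph.Reachable.refl _⟩

lemma Rc.symm' {V : Type} {G : SimpleGraph V} {C : Set V} {x y : V} (h : Rc G C x y) :
    Rc G C y x := by
  obtain ⟨hx, hy, h⟩ := h
  exact ⟨hy, hx, h.symm⟩

lemma Rc.trans' {V : Type} {G : SimpleGraph V} {C : Set V} {x y z : V} (h : Rc G C x y)
    (h' : Rc G C y z) : Rc G C x z := by
  obtain ⟨hx, hy, h⟩ := h
  obtain ⟨hy', hz, h'⟩ := h'
  exact ⟨hx, hz, h.trans h'⟩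

lemma Rc.of_adj {V : Type} {G : SimpleGraph V} {C : Set V} {x y : V} (hx : x ∉ C) (hy : y ∉ C)
    (h : G.Adj x y) : Rc G C x y :=
  ⟨hx, hy, SimpleGraph.Adj.reachable (by exact h)⟩

lemma chain (m t : ℕ) (C : Set (Vt m t)) (i : ℕ) (n : ℕ) (hin : i + n < m)
    (h : ∀ c, i ≤ c → c ≤ i + n → ∀ hc : c < m, (Sum.inl ⟨c, hc⟩ : Vt m t) ∉ C) :
    Rc (Ex m t) C (Sum.inl ⟨i, by omega⟩) (Sum.inl ⟨i + n, hin⟩) := by
  induction n with
  | zero => exact Rc.rfl' (h i le_rfl (by omega) (by omega))
  | succ n ih =>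
    refine (ih (by omega) (fun c h1 h2 hc => h c h1 (by omega) hc)).trans' ?_
    refine Rc.of_adj (h _ (by omega) (by omega) _) (h _ (by omega) (by omega) _) ?_
    show adjF m t (Sum.inl _) (Sum.inl _)
    simp only [adjF]
    omega

lemma cyc_reach (m t : ℕ) (hm : 4 ≤ m) (C : Set (Vt m t)) (hC : (Ex m t).IsClique C)
    (i j : Fin m) (hi : (Sum.inl i : Vt m t) ∉ C) (hj : (Sum.inl j : Vt m t) ∉ C)
    (hij : i.val < j.val) : Rc (Ex m t) C (Sum.inl i) (Sum.inl j) := by
  by_cases hin : ∀ c, i.val ≤ c → c ≤ j.val → ∀ hc : c < m, (Sum.inl ⟨c, hc⟩ : Vt m t) ∉ C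
  · have := chain m t C i.val (j.val - i.val) (by omega)
      (fun c h1 h2 hc => hin c h1 (by omega) hc)
    have e : (⟨i.val + (j.val - i.val), by omega⟩ : Fin m) = j := Fin.ext (by simp; omega)
    rw [e] at this
    exact this
  · push Not at hin
    obtain ⟨c, hic, hcj, hcm, hc⟩ := hin
    have hci : c ≠ i.val := by
      rintro rfl
      exact hi hc
    have hcj' : c ≠ j.val := by
      rintro rfl
      exact hj hc
    have hout : ∀ d, (hd : d < m) → (d < i.val ∨ j.val < d) → (Sum.inl ⟨d, hd⟩ : Vt m t) ∉ C := by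
      intro d hd hdd hdC
      have hne : (Sum.inl ⟨c, hcm⟩ : Vt m t) ≠ Sum.inl ⟨d, hd⟩ := by
        intro h
        have := Sum.inl_injective h
        rw [Fin.mk.injEq] at this
        omega
      have := hC hc hdC hne
      have h1 : adjF m t (Sum.inl ⟨c, hcm⟩) (Sum.inl ⟨d, hd⟩) := this
      simp only [adjF] at h1
      omega
    have hj2 : ∀ d, (hd : d < m) → (d ≤ i.val ∨ j.val ≤ d) → (Sum.inl ⟨d, hd⟩ : Vt m t) ∉ C := by
      intro d hd hdd
      by_cases h1 : d = i.val
      · subst h1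
        exact hi
      · by_cases h2 : d = j.val
        · subst h2
          exact hj
        · exact hout d hd (by omega)
    have r1 := chain m t C j.val (m - 1 - j.val) (by omega) (fun c h1 h2 hc => hj2 c hc (by omega))
    have r2 := chain m t C 0 i.val (by omega) (fun c h1 h2 hc => hj2 c hc (by omega))
    have r3 : Rc (Ex m t) C (Sum.inl ⟨0, by omega⟩) (Sum.inl ⟨m - 1, by omega⟩) := by
      refine Rc.of_adj (hj2 _ _ (by omega)) (hj2 _ _ (by omega)) ?_
      refine Or.inr (Or.inr (Or.inl ⟨rfl, ?_, by omega⟩))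
      show m - 1 + 1 = m
      omega
    have e1 : (⟨j.val + (m - 1 - j.val), by omega⟩ : Fin m) = ⟨m - 1, by omega⟩ :=
      Fin.ext (by simp; omega)
    have e2 : (⟨0 + i.val, by omega⟩ : Fin m) = i := Fin.ext (by simp)
    rw [e1] at r1
    rw [e2] at r2
    exact r2.symm'.trans' (r3.trans' r1.symm')

lemma no_cutset (m t : ℕ) (hm : 4 ≤ m) : ¬ HasCliqueCutset (Ex m t) := by
  rintro ⟨C, hC, hn⟩
  apply hn
  have hcyc : ∀ i j : Fin m, (Sum.inl i : Vt m t) ∉ C → (Sum.inl j : Vt m t) ∉ C →
      Rc (Ex m t) C (Sum.inl i) (Sum.inl j) := by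
    intro i j hi hj
    rcases lt_trichotomy i.val j.val with h | h | h
    · exact cyc_reach m t hm C hC i j hi hj h
    · rw [Fin.ext h]
      exact Rc.rfl' hj
    · exact (cyc_reach m t hm C hC j i hj hi h).symm'
  obtain ⟨b, hbC, hb⟩ : ∃ b : Fin m, (Sum.inl b : Vt m t) ∉ C ∧ (b.val ≤ 1 ∨ b.val + 1 = m) := by
    by_contra hcon
    push Not at hcon
    have h1 : (Sum.inl ⟨1, by omega⟩ : Vt m t) ∈ C := by
      by_contra h
      have := hcon _ h
      simp at this
    have h2 : (Sum.inl ⟨m - 1, by omega⟩ : Vt m t) ∈ C := by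
      by_contra h
      have := hcon _ h
      simp only at this
      omega
    have hne : (Sum.inl ⟨1, by omega⟩ : Vt m t) ≠ Sum.inl ⟨m - 1, by omega⟩ := by
      intro h
      have := Sum.inl_injective h
      rw [Fin.mk.injEq] at this
      omega
    have h3 : adjF m t (Sum.inl ⟨1, by omega⟩) (Sum.inl ⟨m - 1, by omega⟩) := hC h1 h2 hne
    simp only [adjF] at h3
    omega
  have hall : ∀ x : Vt m t, x ∉ C → Rc (Ex m t) C x (Sum.inl b) := by
    rintro (i | a | a) hx
    · exact hcyc i b hx hbC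
    · exact Rc.of_adj hx hbC (show adjF m t (Sum.inr (Sum.inl a)) (Sum.inl b) from trivial)
    · exact Rc.of_adj hx hbC (show adjF m t (Sum.inr (Sum.inr a)) (Sum.inl b) from hb)
  rintro ⟨x, hx⟩ ⟨y, hy⟩
  obtain ⟨_, _, h⟩ := (hall x hx).trans' (hall y hy).symm'
  exact h

/-! ### Minimal separators -/

/-- The separator attached to `I`. -/
def SI (m t : ℕ) (I : Finset (Fin t)) : Set (Vt m t) := fun x =>
  match x with
  | Sum.inl i => i.val ≤ 1 ∨ i.val + 1 = m
  | Sum.inr (Sum.inl a) => a ∈ I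
  | Sum.inr (Sum.inr a) => a ∉ I

lemma isMin (m t : ℕ) (I : Finset (Fin t)) (i j : Fin t) (hi : i ∈ I) (hj : j ∉ I) :
    IsMinimalSeparator (Ex m t) (SI m t I) := by
  have hij : i ≠ j := fun h => hj (h ▸ hi)
  have hvi : ∀ a ∈ I, (Sum.inr (Sum.inr a) : Vt m t) ∉ SI m t I := fun a ha h => h ha
  have huj : ∀ a, a ∉ I → (Sum.inr (Sum.inl a) : Vt m t) ∉ SI m t I := fun a ha h => ha h
  refine ⟨Sum.inr (Sum.inr i), Sum.inr (Sum.inl j), ?_, ?_, ?_, ?_⟩
  · intro h
    have := Sum.inr_injective h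
    exact absurd this (by simp)
  · exact fun h => hij h
  · refine ⟨hvi i hi, huj j hj, ?_⟩
    intro h
    rw [SimpleGraph.reachable_iff_reflTransGen] at h
    have hP : ∀ y, Relation.ReflTransGen ((Ex m t).induce (SI m t I)ᶜ).Adj
        ⟨Sum.inr (Sum.inr i), hvi i hi⟩ y → ∃ a ∈ I, y.1 = Sum.inr (Sum.inr a) := by
      intro y hy
      induction hy with
      | refl => exact ⟨i, hi, rfl⟩
      | @tail p q _ hbc ih =>
        obtain ⟨a, ha, hp⟩ := ih
        have h1 : (Ex m t).Adj p.1 q.1 := hbc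
        rw [hp] at h1
        have hq := q.2
        rcases hq1 : q.1 with c | c | c
        · rw [hq1] at h1
          exact absurd (show q.1 ∈ SI m t I by rw [hq1]; exact h1) hq
        · rw [hq1] at h1
          have h2 : a = c := h1
          subst h2
          exact absurd (show q.1 ∈ SI m t I by rw [hq1]; exact ha) hq
        · refine ⟨c, ?_, rfl⟩
          by_contra hc
          exact absurd (show q.1 ∈ SI m t I by rw [hq1]; exact hc) hq
    obtain ⟨a, _, ha⟩ := hP _ h
    have := Sum.inr_injective ha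
    exact absurd this (by simp)
  · intro T hT hsep
    obtain ⟨s, hsS, hsT⟩ := Set.exists_of_ssubset hT
    have hsub : ∀ x, x ∉ SI m t I → x ∉ T := fun x hx h => hx (hT.1 h)
    obtain ⟨ha, hb, hr⟩ := hsep
    have hgoal : Rc (Ex m t) T (Sum.inr (Sum.inr i)) (Sum.inr (Sum.inl j)) := by
      rcases s with c | c | c
      · have hc : c.val ≤ 1 ∨ c.val + 1 = m := hsS
        exact (Rc.of_adj (hsub _ (hvi i hi)) hsT
          (show adjF m t (Sum.inr (Sum.inr i)) (Sum.inl c) from hc)).trans'
          (Rc.of_adj hsT (hsub _ (huj j hj))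
            (show adjF m t (Sum.inl c) (Sum.inr (Sum.inl j)) from trivial))
      · have hc : c ∈ I := hsS
        have hcj : c ≠ j := fun h => hj (h ▸ hc)
        have r1 : Rc (Ex m t) T (Sum.inr (Sum.inr i)) (Sum.inr (Sum.inr c)) := by
          by_cases hic : i = c
          · subst hic
            exact Rc.rfl' (hsub _ (hvi i hi))
          · exact Rc.of_adj (hsub _ (hvi i hi)) (hsub _ (hvi c hc))
              (show adjF m t (Sum.inr (Sum.inr i)) (Sum.inr (Sum.inr c)) from hic)
        have r2 : Rc (Ex m t) T (Sum.inr (Sum.inr c)) (Sum.inr (Sum.inl c)) :=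
          Rc.of_adj (hsub _ (hvi c hc)) hsT
            (show adjF m t (Sum.inr (Sum.inr c)) (Sum.inr (Sum.inl c)) from rfl)
        have r3 : Rc (Ex m t) T (Sum.inr (Sum.inl c)) (Sum.inr (Sum.inl j)) :=
          Rc.of_adj hsT (hsub _ (huj j hj))
            (show adjF m t (Sum.inr (Sum.inl c)) (Sum.inr (Sum.inl j)) from hcj)
        exact r1.trans' (r2.trans' r3)
      · have hc : c ∉ I := hsS
        have hic : i ≠ c := fun h => hc (h ▸ hi)
        have r1 : Rc (Ex m t) T (Sum.inr (Sum.inr i)) (Sum.inr (Sum.inr c)) :=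
          Rc.of_adj (hsub _ (hvi i hi)) hsT
              (show adjF m t (Sum.inr (Sum.inr i)) (Sum.inr (Sum.inr c)) from hic)
        have r2 : Rc (Ex m t) T (Sum.inr (Sum.inr c)) (Sum.inr (Sum.inl c)) :=
          Rc.of_adj hsT (hsub _ (huj c hc))
            (show adjF m t (Sum.inr (Sum.inr c)) (Sum.inr (Sum.inl c)) from rfl)
        have r3 : Rc (Ex m t) T (Sum.inr (Sum.inl c)) (Sum.inr (Sum.inl j)) := by
          by_cases hcj : c = j
          · subst hcj
            exact Rc.rfl' (hsub _ (huj c hc))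
          · exact Rc.of_adj (hsub _ (huj c hc)) (hsub _ (huj j hj))
              (show adjF m t (Sum.inr (Sum.inl c)) (Sum.inr (Sum.inl j)) from hcj)
        exact r1.trans' (r2.trans' r3)
    obtain ⟨_, _, h⟩ := hgoal
    exact hr h

lemma SI_injective (m t : ℕ) : Function.Injective (SI m t) := by
  intro I J h
  ext a
  have := congrFun h (Sum.inr (Sum.inl a))
  simp only [SI] at this
  exact this.to_iff

lemma many (m t : ℕ) : 2 ^ t - 2 ≤ {S : Set (Vt m t) | IsMinimalSeparator (Ex m t) S}.ncard := by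
  classical
  set F : Finset (Finset (Fin t)) := ((Finset.univ : Finset (Finset (Fin t))).erase ∅).erase
    Finset.univ with hF
  have h1 : 2 ^ t - 2 ≤ F.card := by
    have e1 := Finset.pred_card_le_card_erase (s := (Finset.univ : Finset (Finset (Fin t))))
      (a := ∅)
    have e2 := Finset.pred_card_le_card_erase
      (s := (Finset.univ : Finset (Finset (Fin t))).erase ∅) (a := Finset.univ)
    have e3 : (Finset.univ : Finset (Finset (Fin t))).card = 2 ^ t := by
      rw [Finset.card_univ, Fintype.card_finset, Fintype.card_fin]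
    rw [hF]
    omega
  have h2 : (F.image (SI m t)).card = F.card := Finset.card_image_of_injective _ (SI_injective m t)
  calc 2 ^ t - 2 ≤ (F.image (SI m t)).card := by rw [h2]; exact h1
    _ = ((F.image (SI m t) : Finset (Set (Vt m t))) : Set (Set (Vt m t))).ncard :=
        (Set.ncard_coe_finset _).symm
    _ ≤ _ := by
        apply Set.ncard_le_ncard
        · intro S hS
          rw [Finset.mem_coe, Finset.mem_image] at hS
          obtain ⟨I, hI, rfl⟩ := hS
          rw [hF, Finset.mem_erase, Finset.mem_erase] at hI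
          obtain ⟨i, hi⟩ := Finset.nonempty_iff_ne_empty.2 hI.2.1
          obtain ⟨j, hj⟩ : ∃ j, j ∉ I := by
            by_contra h
            push Not at h
            exact hI.1 (Finset.eq_univ_iff_forall.2 h)
          exact isMin m t I i j hi hj
        · exact Set.toFinite _

open Polynomial in
lemma poly_lt (q : ℝ[X]) : ∀ᶠ t : ℕ in Filter.atTop, q.eval (t : ℝ) < 2 ^ t - 2 := by
  have h1 : (fun t : ℕ => q.eval (t : ℝ)) =o[Filter.atTop] (fun t : ℕ => (2 : ℝ) ^ t) := by
    have : (fun t : ℕ => q.eval (t : ℝ)) = fun t : ℕ =>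
        ∑ i ∈ Finset.range (q.natDegree + 1), q.coeff i * (t : ℝ) ^ i := by
      funext t
      exact Polynomial.eval_eq_sum_range _
    rw [this]
    refine Asymptotics.IsLittleO.fun_sum fun i _ => ?_
    exact (isLittleO_pow_const_const_pow_of_one_lt (R := ℝ) i
      (by norm_num : (1 : ℝ) < 2)).const_mul_left _
  have h2 := h1.bound (by norm_num : (0 : ℝ) < 1 / 4)
  filter_upwards [h2, Filter.eventually_ge_atTop 4] with t ht ht4
  have h3 : (16 : ℝ) ≤ 2 ^ t := by
    calc (16 : ℝ) = 2 ^ 4 := by norm_num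
      _ ≤ 2 ^ t := pow_le_pow_right₀ (by norm_num) ht4
  have h4 : q.eval (t : ℝ) ≤ 1 / 4 * 2 ^ t := by
    refine (le_abs_self _).trans ?_
    rw [← Real.norm_eq_abs]
    refine ht.trans ?_
    rw [Real.norm_eq_abs, abs_of_pos (by positivity)]
  linarith

/-- Disproof of Q1: for every polynomial `p` and every `k` there is a finite graph with no clique
cutset and no induced minor isomorphic to `K_{2,3}` that has more than `p(|V|)` minimal separators
and a hole of length at least `k`. -/
theorem result : ∀ (p : Polynomial ℝ) (k : ℕ), ∃ (V : Type) (_ : Fintype V) (G : SimpleGraph V),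
    ¬ HasCliqueCutset G ∧
    ¬ IsInducedMinor (completeBipartiteGraph (Fin 2) (Fin 3)) G ∧
    p.eval (Fintype.card V : ℝ) < ({S : Set V | IsMinimalSeparator G S}.ncard : ℝ) ∧
    ∃ L, k ≤ L ∧ HasHoleOfLength G L := by
  intro p k
  set m := k + 4 with hm
  obtain ⟨t, ht⟩ := (poly_lt (p.comp (Polynomial.C 2 * Polynomial.X +
    Polynomial.C (m : ℝ)))).exists
  refine ⟨Vt m t, inferInstance, Ex m t, no_cutset m t (by omega), no_minor m t (by omega), ?_,
    m, by omega, hole_embed m t (by omega)⟩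
  have h1 : (Fintype.card (Vt m t) : ℝ) = 2 * t + m := by
    simp only [Fintype.card_sum, Fintype.card_fin]
    push_cast
    ring
  have h2 : p.eval (Fintype.card (Vt m t) : ℝ) < 2 ^ t - 2 := by
    rw [h1]
    simpa using ht
  refine h2.trans_le ?_
  have h3 := many m t
  have h4 : (2 : ℝ) ^ t ≤ ({S : Set (Vt m t) | IsMinimalSeparator (Ex m t) S}.ncard : ℝ) + 2 := by
    have : 2 ^ t ≤ {S : Set (Vt m t) | IsMinimalSeparator (Ex m t) S}.ncard + 2 := by omega
    exact_mod_cast this
  linarith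

end Pool.Agent.Results.MP_89ca7b_co.ManySeparatorsLongHole
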